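import Pool.Agent.T2h77.Geo2

/-!
# Automorphic forms on `SL₂` over number fields with weights at infinity: the standard vectors
-/

set_option autoImplicit false
set_option linter.unusedSectionVars false
set_option linter.deprecated false

open NumberField NumberField.mixedEmbedding MeasureTheory Matrix NumberField.InfinitePlace
open scoped MatrixGroups ENNReal ComplexConjugate
open Pool.Agent.T2h77

noncomputable section

namespace Pool.Agent.T2h74

variable {K : Type} [Field K] [NumberField K]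

open Classical in
/-- The coordinate of `x` at the infinite place `w`, as a complex number. -/
def ev (w : InfinitePlace K) (x : mixedSpace K) : ℂ :=
  if hw : IsReal w then ((x.1 ⟨w, hw⟩ : ℝ) : ℂ) else x.2 ⟨w, not_isReal_iff_isComplex.mp hw⟩

lemma ev_real {w : InfinitePlace K} (hw : IsReal w) (x : mixedSpace K) :
    ev w x = ((x.1 ⟨w, hw⟩ : ℝ) : ℂ) := by
  rw [ev, dif_pos hw]

lemma ev_complex {w : InfinitePlace K} (hw : ¬ IsReal w) (x : mixedSpace K) :
    ev w x = x.2 ⟨w, not_isReal_iff_isComplex.mp hw⟩ := by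
  rw [ev, dif_neg hw]

lemma ev_add (w : InfinitePlace K) (x y : mixedSpace K) : ev w (x + y) = ev w x + ev w y := by
  by_cases hw : IsReal w
  · simp [ev_real hw]
  · simp [ev_complex hw]

lemma ev_mul (w : InfinitePlace K) (x y : mixedSpace K) : ev w (x * y) = ev w x * ev w y := by
  by_cases hw : IsReal w
  · simp [ev_real hw]
  · simp [ev_complex hw]

lemma ev_neg (w : InfinitePlace K) (x : mixedSpace K) : ev w (-x) = - ev w x := by
  by_cases hw : IsReal w
  · simp [ev_real hw]
  · simp [ev_complex hw]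

lemma ev_one (w : InfinitePlace K) : ev w (1 : mixedSpace K) = 1 := by
  by_cases hw : IsReal w
  · simp [ev_real hw]
  · simp [ev_complex hw]

lemma ev_zero (w : InfinitePlace K) : ev w (0 : mixedSpace K) = 0 := by
  by_cases hw : IsReal w
  · simp [ev_real hw]
  · simp [ev_complex hw]

lemma ev_star (w : InfinitePlace K) (x : mixedSpace K) : ev w (star x) = conj (ev w x) := by
  by_cases hw : IsReal w
  · simp [ev_real hw]
  · simp [ev_complex hw]

lemma conj_ev {w : InfinitePlace K} (hw : IsReal w) (x : mixedSpace K) : conj (ev w x) = ev w x := by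
  rw [ev_real hw]; simp

lemma norm_ev (w : InfinitePlace K) (x : mixedSpace K) : ‖ev w x‖ = normAtPlace w x := by
  by_cases hw : IsReal w
  · rw [ev_real hw, normAtPlace_apply_of_isReal hw]; simp
  · rw [ev_complex hw, normAtPlace_apply_of_isComplex (not_isReal_iff_isComplex.mp hw)]

lemma ev_ext {x y : mixedSpace K} (h : ∀ w, ev w x = ev w y) : x = y := by
  refine Prod.ext ?_ ?_
  · ext ⟨w, hw⟩
    have := h w
    rw [ev_real hw, ev_real hw] at this
    exact_mod_cast this
  · ext ⟨w, hw⟩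
    have hw' : ¬ IsReal w := not_isReal_iff_isComplex.mpr hw
    have := h w
    rw [ev_complex hw', ev_complex hw'] at this
    exact this

lemma continuous_ev (w : InfinitePlace K) : Continuous (ev w : mixedSpace K → ℂ) := by
  by_cases hw : IsReal w
  · have : (ev w : mixedSpace K → ℂ) = fun x => ((x.1 ⟨w, hw⟩ : ℝ) : ℂ) := by
      ext x; exact ev_real hw x
    rw [this]
    fun_prop
  · have : (ev w : mixedSpace K → ℂ) = fun x => x.2 ⟨w, not_isReal_iff_isComplex.mp hw⟩ := by
      ext x; exact ev_complex hw x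
    rw [this]
    fun_prop

/-- an element with given coordinates, real at the real places -/
def mk (a : InfinitePlace K → ℂ) : mixedSpace K := (fun w => (a w.1).re, fun w => a w.1)

lemma ev_mk (a : InfinitePlace K → ℂ) (ha : ∀ w, IsReal w → conj (a w) = a w) (w : InfinitePlace K) :
    ev w (mk a) = a w := by
  by_cases hw : IsReal w
  · rw [ev_real hw]
    exact Complex.conj_eq_iff_re.1 (ha w hw)
  · rw [ev_complex hw]
    rfl

open Classical in
/-- The local standard function of weight `N w` and parameter `ν w` at the place `w`, as a function of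
the second row `z = (c, d)` of a matrix: with `‖z‖` the euclidean norm, it is
`(‖z‖ / (σ i c + d)) ^ N * ‖z‖ ^ (- (1 - 2 ν))` if `w` is real, and
`(d / ‖z‖) ^ N * ‖z‖ ^ (- 2 (1 - 2 ν))` if `w` is complex. -/
def psiw (N : InfinitePlace K → ℕ) (σ : InfinitePlace K → ℤˣ) (ν : InfinitePlace K → ℂ)
    (w : InfinitePlace K) (z : Fin 2 → mixedSpace K) : ℂ :=
  (if IsReal w then ((rn w z : ℝ) : ℂ) / (ev w (z 0) * (((σ w : ℤ) : ℂ) * Complex.I) + ev w (z 1))
    else ev w (z 1) / ((rn w z : ℝ) : ℂ)) ^ N w *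
    ((rn w z : ℝ) : ℂ) ^ (-(w.mult : ℂ) * (1 - 2 * ν w))

/-- The product of the local standard functions over the infinite places. -/
def psi (N : InfinitePlace K → ℕ) (σ : InfinitePlace K → ℤˣ) (ν : InfinitePlace K → ℂ) (g : GG K) : ℂ :=
  ∏ w, psiw N σ ν w (g 1)

/-- `f` has the weights `N`, `σ` and the parameters `ν` at the infinite places: it is an eigenfunction
of all convolution operators of which the standard function is an eigenfunction, with the same
eigenvalue. -/
def HasType (N : InfinitePlace K → ℕ) (σ : InfinitePlace K → ℤˣ) (ν : InfinitePlace K → ℂ)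
    (f : GG K → ℂ) : Prop :=
  ∀ (Φ : GG K → ℂ) (c : ℂ), Continuous Φ → HasCompactSupport Φ →
    (∀ g, ∫ h, Φ h * psi N σ ν (g * h) ∂(mu K) = c * psi N σ ν g) →
    ∀ g, ∫ h, Φ h * f (g * h) ∂(mu K) = c * f g

/-! ### Unitary elements -/

/-- elements of the maximal compact subgroup -/
def IsU (k : GG K) : Prop := k 0 0 = star (k 1 1) ∧ k 0 1 = - star (k 1 0)

lemma det_eq (k : GG K) : k 0 0 * k 1 1 - k 0 1 * k 1 0 = 1 := by
  have := k.2
  rw [Matrix.det_fin_two] at this
  exact this

lemma IsU.ev00 {k : GG K} (hk : IsU k) (w : InfinitePlace K) : ev w (k 0 0) = conj (ev w (k 1 1)) := by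
  rw [hk.1, ev_star]

lemma IsU.ev01 {k : GG K} (hk : IsU k) (w : InfinitePlace K) : ev w (k 0 1) = - conj (ev w (k 1 0)) := by
  rw [hk.2, ev_neg, ev_star]

lemma IsU.unit {k : GG K} (hk : IsU k) (w : InfinitePlace K) :
    conj (ev w (k 1 1)) * ev w (k 1 1) + conj (ev w (k 1 0)) * ev w (k 1 0) = 1 := by
  have h := congrArg (ev w) (det_eq k)
  rw [sub_eq_add_neg, ev_add, ev_neg, ev_mul, ev_mul, hk.ev00, hk.ev01, ev_one] at h
  linear_combination h

lemma rn_sq_ev (w : InfinitePlace K) (z : Fin 2 → mixedSpace K) :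
    ((rn w z ^ 2 : ℝ) : ℂ) = conj (ev w (z 0)) * ev w (z 0) + conj (ev w (z 1)) * ev w (z 1) := by
  rw [rn_sq, ← norm_ev, ← norm_ev, ← Complex.normSq_eq_norm_sq, ← Complex.normSq_eq_norm_sq]
  push_cast
  rw [Complex.normSq_eq_conj_mul_self, Complex.normSq_eq_conj_mul_self]

lemma row1_mul (g h : GG K) (j : Fin 2) : (g * h) 1 j = g 1 0 * h 0 j + g 1 1 * h 1 j := by
  rw [Matrix.SpecialLinearGroup.coe_mul, Matrix.mul_apply, Fin.sum_univ_two]

lemma row_mul (g h : GG K) (i j : Fin 2) : (g * h) i j = g i 0 * h 0 j + g i 1 * h 1 j := by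
  rw [Matrix.SpecialLinearGroup.coe_mul, Matrix.mul_apply, Fin.sum_univ_two]

lemma rn_mul_U {k : GG K} (hk : IsU k) (g : GG K) (i : Fin 2) (w : InfinitePlace K) :
    rn w ((g * k) i) = rn w (g i) := by
  have h : rn w ((g * k) i) ^ 2 = rn w (g i) ^ 2 := by
    have h1 := rn_sq_ev w ((g * k) i)
    have h2 := rn_sq_ev w (g i)
    rw [row_mul, row_mul, ev_add, ev_add, ev_mul, ev_mul, ev_mul, ev_mul, hk.ev00, hk.ev01] at h1
    simp only [map_add, map_mul, map_neg, Complex.conj_conj] at h1
    have h3 := hk.unit w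
    have h4 : ((rn w ((g * k) i) ^ 2 : ℝ) : ℂ) = ((rn w (g i) ^ 2 : ℝ) : ℂ) := by
      rw [h1, h2]
      linear_combination (conj (ev w (g i 0)) * ev w (g i 0) + conj (ev w (g i 1)) * ev w (g i 1)) * h3
    exact_mod_cast h4
  exact (sq_eq_sq₀ (rn_nonneg _ _) (rn_nonneg _ _)).1 h

lemma mn_mul_U {k : GG K} (hk : IsU k) (g : GG K) (w : InfinitePlace K) : mn w (g * k) = mn w g := by
  have h : mn w (g * k) ^ 2 = mn w g ^ 2 := by
    rw [mn_sq, mn_sq, rn_mul_U hk, rn_mul_U hk]
  exact (sq_eq_sq₀ (mn_nonneg _ _) (mn_nonneg _ _)).1 h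

lemma IsU.inv {k : GG K} (hk : IsU k) : IsU k⁻¹ := by
  constructor
  · rw [inv_apply00, inv_apply11, hk.1, star_star]
  · rw [inv_apply01, inv_apply10, hk.2, star_neg, neg_neg]

lemma mn_U_mul {k : GG K} (hk : IsU k) (g : GG K) (w : InfinitePlace K) : mn w (k * g) = mn w g := by
  rw [← mn_inv, _root_.mul_inv_rev, mn_mul_U hk.inv, mn_inv]

/-- a diagonal element -/
def dg (a : mixedSpace K) (b : mixedSpace K) (h : a * b = 1) : GG K :=
  ⟨!![a, 0; 0, b], by rw [Matrix.det_fin_two_of, h]; ring⟩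

end Pool.Agent.T2h74
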