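import Pool.Agent.T2h74.TY1

/-!
# The convolution kernel for the standard vectors
-/

set_option autoImplicit false
set_option linter.unusedSectionVars false
set_option linter.deprecated false

open NumberField NumberField.mixedEmbedding MeasureTheory Matrix NumberField.InfinitePlace
open scoped MatrixGroups ENNReal ComplexConjugate
open Pool.Agent.T2h77

noncomputable section

namespace Pool.Agent.T2h74

variable {K : Type} [Field K] [NumberField K]

/-! ### The sum over the roots of unity -/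

lemma sum_roots {N : ℕ} {ζ : ℂ} (hζ : IsPrimitiveRoot ζ (N + 1)) (x y : ℂ) :
    ∑ j ∈ Finset.range (N + 1), (ζ ^ j * x + y) ^ N = (N + 1) * y ^ N := by
  have h1 : ∀ j ∈ Finset.range (N + 1), (ζ ^ j * x + y) ^ N =
      ∑ m ∈ Finset.range (N + 1), (ζ ^ m) ^ j * (x ^ m * y ^ (N - m) * (N.choose m : ℂ)) := by
    intro j _
    rw [add_pow]
    refine Finset.sum_congr rfl fun m _ => ?_
    rw [mul_pow, ← pow_mul, ← pow_mul, mul_comm m j]
    ring
  rw [Finset.sum_congr rfl h1, Finset.sum_comm]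
  have h2 : ∀ m ∈ Finset.range (N + 1), m ≠ 0 →
      ∑ j ∈ Finset.range (N + 1), (ζ ^ m) ^ j * (x ^ m * y ^ (N - m) * (N.choose m : ℂ)) = 0 := by
    intro m hm hm0
    rw [← Finset.sum_mul]
    have h3 : ζ ^ m ≠ 1 := hζ.pow_ne_one_of_pos_of_lt hm0 (Finset.mem_range.1 hm)
    have h4 := geom_sum_mul (ζ ^ m) (N + 1)
    rw [← pow_mul, mul_comm m, pow_mul, hζ.pow_eq_one, one_pow, sub_self] at h4
    rcases mul_eq_zero.1 h4 with h5 | h5
    · rw [h5, zero_mul]
    · exact absurd (sub_eq_zero.1 h5) h3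
  rw [Finset.sum_eq_single_of_mem 0 (by simp) h2]
  simp

/-! ### Distance to the unit element -/

/-- the square of the distance to the unit matrix -/
def nf (h : GG K) : ℝ := ∑ w, (mn w h ^ 2 - 2 * (ev w (h 0 0 + h 1 1)).re + 2)

lemma tr_conj (k h : GG K) :
    (k * h * k⁻¹) 0 0 + (k * h * k⁻¹) 1 1 = h 0 0 + h 1 1 := by
  rw [row_mul, row_mul, row_mul, row_mul, row_mul, row_mul, inv_apply00, inv_apply10, inv_apply01,
    inv_apply11]
  linear_combination (h 0 0 + h 1 1) * det_eq k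

lemma nf_conj {k : GG K} (hk : IsU k) (h : GG K) : nf (k * h * k⁻¹) = nf h := by
  unfold nf
  refine Finset.sum_congr rfl fun w _ => ?_
  rw [tr_conj, mn_mul_U hk.inv, mn_U_mul hk]

lemma nf_term (w : InfinitePlace K) (h : GG K) :
    mn w h ^ 2 - 2 * (ev w (h 0 0 + h 1 1)).re + 2 =
      ‖ev w (h 0 0) - 1‖ ^ 2 + ‖ev w (h 0 1)‖ ^ 2 + ‖ev w (h 1 0)‖ ^ 2 + ‖ev w (h 1 1) - 1‖ ^ 2 := by
  rw [mn_sq', ev_add, ← norm_ev, ← norm_ev, ← norm_ev, ← norm_ev]
  simp only [← Complex.normSq_eq_norm_sq, Complex.normSq_apply, Complex.sub_re, Complex.sub_im,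
    Complex.one_re, Complex.one_im, Complex.add_re]
  ring

lemma nf_term_nonneg (w : InfinitePlace K) (h : GG K) :
    0 ≤ mn w h ^ 2 - 2 * (ev w (h 0 0 + h 1 1)).re + 2 := by
  rw [nf_term]; positivity

lemma nf_term_le (w : InfinitePlace K) (h : GG K) :
    mn w h ^ 2 - 2 * (ev w (h 0 0 + h 1 1)).re + 2 ≤ nf h :=
  Finset.single_le_sum (f := fun w => mn w h ^ 2 - 2 * (ev w (h 0 0 + h 1 1)).re + 2)
    (fun w _ => nf_term_nonneg w h) (Finset.mem_univ w)

lemma continuous_nf : Continuous (nf : GG K → ℝ) := by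
  unfold nf
  refine continuous_finsetSum _ fun w _ => ?_
  have h1 := continuous_mn w (K := K)
  have h2 := continuous_entry (K := K) 0 0
  have h3 := continuous_entry (K := K) 1 1
  have h4 : Continuous fun h : GG K => ev w (h 0 0 + h 1 1) := (continuous_ev w).comp (h2.add h3)
  have h5 := Complex.continuous_re.comp h4
  exact ((h1.pow 2).sub (continuous_const.mul h5)).add continuous_const

lemma nf_one : nf (1 : GG K) = 0 := by
  unfold nf
  refine Finset.sum_eq_zero fun w _ => ?_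
  rw [nf_term]
  have e00 : (1 : GG K) 0 0 = 1 := by simp
  have e01 : (1 : GG K) 0 1 = 0 := by simp
  have e10 : (1 : GG K) 1 0 = 0 := by simp
  have e11 : (1 : GG K) 1 1 = 1 := by simp
  rw [e00, e01, e10, e11, ev_one, ev_zero]
  simp

/-- the kernel -/
def ker0 (δ : ℝ) (h : GG K) : ℝ := max 0 (δ - nf h)

lemma ker0_nonneg (δ : ℝ) (h : GG K) : 0 ≤ ker0 δ h := le_max_left _ _

lemma ker0_pos {δ : ℝ} {h : GG K} (hh : ker0 δ h ≠ 0) : nf h < δ := by
  by_contra hcon
  apply hh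
  unfold ker0
  exact max_eq_left (by linarith [not_lt.1 hcon])

lemma nf_nonneg (h : GG K) : 0 ≤ nf h := Finset.sum_nonneg fun w _ => nf_term_nonneg w h

lemma ker0_le {δ : ℝ} (hδ : 0 ≤ δ) (h : GG K) : ker0 δ h ≤ δ :=
  max_le hδ (by linarith [nf_nonneg h])

lemma continuous_ker0 (δ : ℝ) : Continuous (ker0 δ : GG K → ℝ) :=
  continuous_const.max (continuous_const.sub continuous_nf)

lemma ker0_supp {δ : ℝ} (hδ : δ ≤ 1) {h : GG K} (hh : ker0 δ h ≠ 0) : h ∈ ball (fun _ : InfinitePlace K => (4 : ℝ)) := by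
  intro w
  have h1 := ker0_pos hh
  have h2 := nf_term_le w h
  have h3 : (ev w (h 0 0 + h 1 1)).re ≤ 2 * mn w h := by
    calc (ev w (h 0 0 + h 1 1)).re ≤ ‖ev w (h 0 0 + h 1 1)‖ := Complex.re_le_norm _
      _ = normAtPlace w (h 0 0 + h 1 1) := norm_ev _ _
      _ ≤ normAtPlace w (h 0 0) + normAtPlace w (h 1 1) := normAtPlace_add_le _ _ _
      _ ≤ mn w h + mn w h := add_le_add (entry_le _ _ _ _) (entry_le _ _ _ _)
      _ = _ := by ring
  have h4 := mn_pos w h
  change mn w h ≤ 4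
  by_contra hcon
  push Not at hcon
  nlinarith

lemma hcs_ker0 {δ : ℝ} (hδ : δ ≤ 1) : HasCompactSupport (ker0 δ : GG K → ℝ) :=
  HasCompactSupport.intro (isCompact_ball (fun _ : InfinitePlace K => (4 : ℝ))) fun h hh => by
    by_contra hcon
    exact hh (ker0_supp hδ hcon)

lemma ker0_conj (δ : ℝ) {k : GG K} (hk : IsU k) (h : GG K) : ker0 δ (k * h * k⁻¹) = ker0 δ h := by
  unfold ker0; rw [nf_conj hk]

/-! ### Properties of the standard functions -/

lemma den_ne {w : InfinitePlace K} (hw : IsReal w) (s : ℤˣ) (g : GG K) :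
    ev w (g 1 0) * (((s : ℤ) : ℂ) * Complex.I) + ev w (g 1 1) ≠ 0 := by
  intro h
  rw [ev_real hw, ev_real hw] at h
  have hre := congrArg Complex.re h
  have him := congrArg Complex.im h
  simp at hre him
  have h0 : ev w (g 1 1) = 0 := by rw [ev_real hw, hre]; simp
  have h1 : ev w (g 1 0) = 0 := by rw [ev_real hw, him]; simp
  have h2 := rn_row_pos w g 1
  have h3 := rn_sq w (g 1)
  rw [← norm_ev, ← norm_ev, h0, h1] at h3
  simp at h3
  rw [h3] at h2
  exact lt_irrefl _ h2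

lemma continuous_rn1 (w : InfinitePlace K) : Continuous fun h : GG K => rn w (h 1) :=
  (continuous_rn w).comp
    ((continuous_apply 1).comp Matrix.SpecialLinearGroup.isClosedEmbedding_val.continuous)

/-- joint continuity -/
lemma continuous_psi2 (N : InfinitePlace K → ℕ) (σ : InfinitePlace K → ℤˣ) :
    Continuous fun p : (InfinitePlace K → ℂ) × GG K => psi N σ p.1 p.2 := by
  unfold psi
  refine continuous_finsetProd _ fun w _ => ?_
  have h1 : Continuous fun p : (InfinitePlace K → ℂ) × GG K => ev w (p.2 1 0) :=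
    ((continuous_ev w).comp (continuous_entry (K := K) 1 0)).comp continuous_snd
  have h2 : Continuous fun p : (InfinitePlace K → ℂ) × GG K => ev w (p.2 1 1) :=
    ((continuous_ev w).comp (continuous_entry (K := K) 1 1)).comp continuous_snd
  have h3 : Continuous fun p : (InfinitePlace K → ℂ) × GG K => ((rn w (p.2 1) : ℝ) : ℂ) :=
    Complex.continuous_ofReal.comp ((continuous_rn1 w).comp continuous_snd)
  have h4 : ∀ p : (InfinitePlace K → ℂ) × GG K, ((rn w (p.2 1) : ℝ) : ℂ) ≠ 0 := fun p => by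
    exact_mod_cast (rn_row_pos w p.2 1).ne'
  have h5 : Continuous fun p : (InfinitePlace K → ℂ) × GG K =>
      ((rn w (p.2 1) : ℝ) : ℂ) ^ (-(w.mult : ℂ) * (1 - 2 * p.1 w)) := by
    refine Continuous.cpow h3 ?_ fun p => ?_
    · have h6 : Continuous fun p : (InfinitePlace K → ℂ) × GG K => p.1 w :=
        (continuous_apply w).comp continuous_fst
      exact continuous_const.mul (continuous_const.sub (continuous_const.mul h6))
    · exact Complex.ofReal_mem_slitPlane.2 (rn_row_pos w p.2 1)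
  unfold psiw
  refine Continuous.mul ?_ h5
  by_cases hw : IsReal w
  · simp only [if_pos hw]
    refine Continuous.pow (Continuous.div h3 ?_ fun p => den_ne hw _ p.2) _
    exact (h1.mul continuous_const).add h2
  · simp only [if_neg hw]
    exact Continuous.pow (Continuous.div h2 h3 h4) _

lemma continuous_psi (N : InfinitePlace K → ℕ) (σ : InfinitePlace K → ℤˣ) (ν : InfinitePlace K → ℂ) :
    Continuous (psi N σ ν : GG K → ℂ) := by
  have h : Continuous fun g : GG K => ((ν, g) : (InfinitePlace K → ℂ) × GG K) :=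
    Continuous.prodMk continuous_const continuous_id
  have h2 := (continuous_psi2 N σ).comp h
  simp only [Function.comp_def] at h2
  exact h2

lemma psi_one (N : InfinitePlace K → ℕ) (σ : InfinitePlace K → ℤˣ) (ν : InfinitePlace K → ℂ) :
    psi N σ ν (1 : GG K) = 1 := by
  unfold psi
  refine Finset.prod_eq_one fun w _ => ?_
  have e10 : (1 : GG K) 1 0 = 0 := by simp
  have e11 : (1 : GG K) 1 1 = 1 := by simp
  have hr : rn w ((1 : GG K) 1) = 1 := by
    unfold rn
    rw [e10, e11]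
    simp
  unfold psiw
  rw [e10, e11, hr, ev_one, ev_zero, Complex.ofReal_one, Complex.one_cpow, mul_one, zero_mul,
    zero_add, div_one, ite_self, one_pow]

open Classical in
/-- homogeneity of the local standard functions -/
lemma psiw_scal (N : InfinitePlace K → ℕ) (σ : InfinitePlace K → ℤˣ) (ν : InfinitePlace K → ℂ)
    (w : InfinitePlace K) {r : ℝ} (hr : 0 < r) {z z' : Fin 2 → mixedSpace K}
    (h0 : ev w (z' 0) = (r : ℂ) * ev w (z 0)) (h1 : ev w (z' 1) = (r : ℂ) * ev w (z 1))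
    (hn : rn w z' = r * rn w z) :
    psiw N σ ν w z' = (r : ℂ) ^ (-(w.mult : ℂ) * (1 - 2 * ν w)) * psiw N σ ν w z := by
  have hr0 : (r : ℂ) ≠ 0 := by exact_mod_cast hr.ne'
  unfold psiw
  rw [h0, h1, hn, Complex.ofReal_mul, Complex.mul_cpow_ofReal_nonneg hr.le (rn_nonneg _ _)]
  generalize ((rn w z : ℝ) : ℂ) ^ (-(w.mult : ℂ) * (1 - 2 * ν w)) = A
  generalize (r : ℂ) ^ (-(w.mult : ℂ) * (1 - 2 * ν w)) = B
  generalize ((rn w z : ℝ) : ℂ) = R
  generalize ev w (z 0) = a
  generalize ev w (z 1) = b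
  have e3 : (if IsReal w then (r : ℂ) * R / ((r : ℂ) * a * (((σ w : ℤ) : ℂ) * Complex.I) + (r : ℂ) * b)
      else (r : ℂ) * b / ((r : ℂ) * R)) =
      (if IsReal w then R / (a * (((σ w : ℤ) : ℂ) * Complex.I) + b) else b / R) := by
    split_ifs with hw
    · have e4 : (r : ℂ) * a * (((σ w : ℤ) : ℂ) * Complex.I) + (r : ℂ) * b =
          (r : ℂ) * (a * (((σ w : ℤ) : ℂ) * Complex.I) + b) := by ring
      rw [e4, mul_div_mul_left _ _ hr0]
    · rw [mul_div_mul_left _ _ hr0]
  rw [e3]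
  ring

/-- the unitary matrix with the same second row up to a positive factor -/
lemma exists_U' (g : GG K) :
    ∃ k : GG K, IsU k ∧ ∃ t : mixedSpace K, (∀ w, ev w t = (((rn w (g 1))⁻¹ : ℝ) : ℂ)) ∧
      ∀ j, k 1 j = t * g 1 j := by
  set t : mixedSpace K := mk fun w => (((rn w (g 1))⁻¹ : ℝ) : ℂ) with ht
  have htw : ∀ w, ev w t = (((rn w (g 1))⁻¹ : ℝ) : ℂ) := fun w => ev_mk _ (fun w _ => by simp) w
  have hdet : star (t * g 1 1) * (t * g 1 1) + star (t * g 1 0) * (t * g 1 0) = 1 := by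
    refine ev_ext fun w => ?_
    simp only [ev_add, ev_mul, ev_star, ev_one, htw, map_mul]
    have h1 := rn_sq_ev w (g 1)
    have h2 : ((rn w (g 1) : ℝ) : ℂ) ≠ 0 := by exact_mod_cast (rn_row_pos w g 1).ne'
    rw [Complex.conj_ofReal]
    push_cast at h1 ⊢
    field_simp
    linear_combination -h1
  refine ⟨⟨!![star (t * g 1 1), - star (t * g 1 0); t * g 1 0, t * g 1 1], by
    rw [Matrix.det_fin_two_of]; linear_combination hdet⟩, ⟨rfl, rfl⟩, t, htw, fun j => ?_⟩
  fin_cases j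
  · rfl
  · rfl

lemma exists_U (N : InfinitePlace K → ℕ) (σ : InfinitePlace K → ℤˣ) (ν : InfinitePlace K → ℂ)
    (g : GG K) :
    ∃ k : GG K, IsU k ∧ ∃ χ : ℂ, χ ≠ 0 ∧ ∀ h, psi N σ ν (k * h) = χ * psi N σ ν (g * h) := by
  obtain ⟨k, hk, t, htw, hkt⟩ := exists_U' g
  have hri : ∀ w, 0 < (rn w (g 1))⁻¹ := fun w => inv_pos.2 (rn_row_pos w g 1)
  have hri' : ∀ w, (((rn w (g 1))⁻¹ : ℝ) : ℂ) ≠ 0 := fun w => by exact_mod_cast (hri w).ne'
  refine ⟨k, hk, ∏ w : InfinitePlace K, (((rn w (g 1))⁻¹ : ℝ) : ℂ) ^ (-(w.mult : ℂ) * (1 - 2 * ν w)),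
    Finset.prod_ne_zero_iff.2 fun w _ => ?_, fun h => ?_⟩
  · rw [Complex.cpow_def_of_ne_zero (hri' w)]
    exact Complex.exp_ne_zero _
  · have e : ∀ j, (k * h) 1 j = t * (g * h) 1 j := by
      intro j
      rw [row1_mul, row1_mul, hkt, hkt]
      ring
    have key : ∀ w, psiw N σ ν w ((k * h) 1) =
        (((rn w (g 1))⁻¹ : ℝ) : ℂ) ^ (-(w.mult : ℂ) * (1 - 2 * ν w)) * psiw N σ ν w ((g * h) 1) := by
      intro w
      have ew : ∀ j, ev w ((k * h) 1 j) = (((rn w (g 1))⁻¹ : ℝ) : ℂ) * ev w ((g * h) 1 j) := by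
        intro j
        rw [e, ev_mul, htw]
      refine psiw_scal N σ ν w (hri w) (ew 0) (ew 1) ?_
      have h1 : rn w ((k * h) 1) ^ 2 = ((rn w (g 1))⁻¹ * rn w ((g * h) 1)) ^ 2 := by
        rw [rn_sq, mul_pow, rn_sq w ((g * h) 1), e, e, map_mul, map_mul, ← norm_ev w t, htw,
          Complex.norm_real, Real.norm_of_nonneg (inv_nonneg.2 (rn_nonneg _ _))]
        ring
      exact (sq_eq_sq₀ (rn_nonneg _ _) (mul_nonneg (inv_nonneg.2 (rn_nonneg _ _))
        (rn_nonneg _ _))).1 h1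
    unfold psi
    rw [Finset.prod_congr rfl fun w _ => key w, Finset.prod_mul_distrib]

lemma rn_U {k : GG K} (hk : IsU k) (w : InfinitePlace K) : rn w (k 1) = 1 := by
  have h1 := rn_sq_ev w (k 1)
  have h2 := hk.unit w
  have h3 : ((rn w (k 1) ^ 2 : ℝ) : ℂ) = ((1 : ℝ) : ℂ) := by
    rw [h1]; push_cast; linear_combination h2
  have h4 : rn w (k 1) ^ 2 = 1 := by exact_mod_cast h3
  nlinarith [rn_nonneg w (k 1)]

/-- at a real place the standard function is multiplicative -/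
lemma psiw_real {w : InfinitePlace K} (hw : IsReal w) (N : InfinitePlace K → ℕ)
    (σ : InfinitePlace K → ℤˣ) (ν : InfinitePlace K → ℂ) (g : GG K) {k : GG K} (hk : IsU k) :
    psiw N σ ν w ((g * k) 1) = psiw N σ ν w (g 1) * psiw N σ ν w (k 1) := by
  unfold psiw
  rw [if_pos hw, if_pos hw, if_pos hw, rn_mul_U hk, rn_U hk]
  have h2 : ev w ((g * k) 1 0) * (((σ w : ℤ) : ℂ) * Complex.I) + ev w ((g * k) 1 1) =
      (ev w (g 1 0) * (((σ w : ℤ) : ℂ) * Complex.I) + ev w (g 1 1)) *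
      (ev w (k 1 0) * (((σ w : ℤ) : ℂ) * Complex.I) + ev w (k 1 1)) := by
    rw [row1_mul, row1_mul, ev_add, ev_add, ev_mul, ev_mul, ev_mul, ev_mul, hk.ev00, hk.ev01,
      conj_ev hw, conj_ev hw]
    have h1 : (((σ w : ℤ) : ℂ) * Complex.I) * (((σ w : ℤ) : ℂ) * Complex.I) = -1 := by
      rcases Int.units_eq_one_or (σ w) with h | h <;> rw [h] <;> simp
    linear_combination (-(ev w (g 1 0)) * ev w (k 1 0)) * h1
  rw [h2, Complex.ofReal_one, Complex.one_cpow, mul_one]
  set a := ev w (g 1 0) * (((σ w : ℤ) : ℂ) * Complex.I) + ev w (g 1 1)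
  set b := ev w (k 1 0) * (((σ w : ℤ) : ℂ) * Complex.I) + ev w (k 1 1)
  rw [show ((rn w (g 1) : ℝ) : ℂ) / (a * b) = ((rn w (g 1) : ℝ) : ℂ) / a * (1 / b) by
    rw [mul_comm a b, ← div_div, div_mul_div_comm, mul_one, mul_comm a b, div_div], mul_pow]
  ring

open Classical in
/-- the diagonal elements used for averaging -/
lemma exists_dg (N : InfinitePlace K → ℕ) : ∃ m : (∀ w : InfinitePlace K, Fin (N w + 1)) → GG K,
    (∀ j, IsU (m j)) ∧ ∀ (j : ∀ w, Fin (N w + 1)) (h : GG K) (w : InfinitePlace K),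
      ev w ((m j * h * (m j)⁻¹) 1 0) = (if IsReal w then 1 else
        Complex.exp (2 * Real.pi * Complex.I / ((N w + 1 : ℕ) : ℂ)) ^ (j w : ℕ)) * ev w (h 1 0) ∧
      ev w ((m j * h * (m j)⁻¹) 1 1) = ev w (h 1 1) := by
  set b : (∀ w : InfinitePlace K, Fin (N w + 1)) → InfinitePlace K → ℂ := fun j w =>
    if IsReal w then 1 else Complex.exp (((Real.pi * (j w : ℕ) / (N w + 1 : ℕ) : ℝ) : ℂ) * Complex.I)
    with hb
  have hbr : ∀ j w, IsReal w → conj (b j w) = b j w := by
    intro j w hw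
    simp only [hb, if_pos hw, map_one]
  have hbn : ∀ j w, conj (b j w) * b j w = 1 := by
    intro j w
    simp only [hb]
    by_cases hw : IsReal w
    · simp [if_pos hw]
    · rw [if_neg hw, ← Complex.normSq_eq_conj_mul_self, Complex.normSq_eq_norm_sq,
        Complex.norm_exp_ofReal_mul_I]
      simp
  have hbs : ∀ j w, b j w * b j w = if IsReal w then 1 else
        Complex.exp (2 * Real.pi * Complex.I / ((N w + 1 : ℕ) : ℂ)) ^ (j w : ℕ) := by
    intro j w
    simp only [hb]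
    by_cases hw : IsReal w
    · simp [if_pos hw]
    · rw [if_neg hw, if_neg hw, ← Complex.exp_add, ← Complex.exp_nat_mul]
      congr 1
      push_cast
      ring
  have hmul : ∀ j, star (mk (b j) : mixedSpace K) * mk (b j) = 1 := by
    intro j
    refine ev_ext fun w => ?_
    rw [ev_mul, ev_star, ev_mk _ (hbr j), ev_one, hbn]
  refine ⟨fun j => dg (star (mk (b j))) (mk (b j)) (hmul j), fun j => ?_, fun j h w => ?_⟩
  · exact ⟨rfl, by change (0 : mixedSpace K) = - star (0 : mixedSpace K); simp⟩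
  · change ev w ((dg (star (mk (b j))) (mk (b j)) (hmul j) * h *
      (dg (star (mk (b j))) (mk (b j)) (hmul j))⁻¹) 1 0) = _ * ev w (h 1 0) ∧
      ev w ((dg (star (mk (b j))) (mk (b j)) (hmul j) * h *
      (dg (star (mk (b j))) (mk (b j)) (hmul j))⁻¹) 1 1) = ev w (h 1 1)
    set m := dg (star (mk (b j))) (mk (b j)) (hmul j) with hm
    have m00 : m 0 0 = star (mk (b j)) := rfl
    have m01 : m 0 1 = 0 := rfl
    have m10 : m 1 0 = 0 := rfl
    have m11 : m 1 1 = mk (b j) := rfl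
    have r0 : (m * h * m⁻¹) 1 0 = mk (b j) * mk (b j) * h 1 0 := by
      rw [row1_mul (m * h) m⁻¹, row1_mul m h 0, row1_mul m h 1, inv_apply00, inv_apply10, m10, m11]
      ring
    have r1 : (m * h * m⁻¹) 1 1 = star (mk (b j)) * mk (b j) * h 1 1 := by
      rw [row1_mul (m * h) m⁻¹, row1_mul m h 0, row1_mul m h 1, inv_apply01, inv_apply11, m01, m10,
        m11, m00]
      ring
    rw [r0, r1]
    constructor
    · rw [ev_mul, ev_mul, ev_mk _ (hbr j), hbs]
    · rw [hmul, one_mul]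

open Classical in
/-- the average over the diagonal elements -/
lemma psi_avg (N : InfinitePlace K → ℕ) (σ : InfinitePlace K → ℤˣ) (ν : InfinitePlace K → ℂ)
    {m : (∀ w : InfinitePlace K, Fin (N w + 1)) → GG K}
    (hm : ∀ (j : ∀ w, Fin (N w + 1)) (h : GG K) (w : InfinitePlace K),
      ev w ((m j * h * (m j)⁻¹) 1 0) = (if IsReal w then 1 else
        Complex.exp (2 * Real.pi * Complex.I / ((N w + 1 : ℕ) : ℂ)) ^ (j w : ℕ)) * ev w (h 1 0) ∧
      ev w ((m j * h * (m j)⁻¹) 1 1) = ev w (h 1 1)) (h : GG K) {k : GG K} (hk : IsU k) :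
    ∑ j, psi N σ ν (m j * h * (m j)⁻¹ * k) =
      (∏ w, ((N w : ℂ) + 1)) * (psi N σ ν h * psi N σ ν k) := by
  set T : ∀ w : InfinitePlace K, Fin (N w + 1) → ℂ := fun w i =>
    if IsReal w then psiw N σ ν w (h 1) * psiw N σ ν w (k 1) else
      ((Complex.exp (2 * Real.pi * Complex.I / ((N w + 1 : ℕ) : ℂ)) ^ (i : ℕ)) * (ev w (h 1 0) *
        ev w (k 0 1)) + ev w (h 1 1) * ev w (k 1 1)) ^ N w / ((rn w (h 1) : ℝ) : ℂ) ^ (N w) *
        ((rn w (h 1) : ℝ) : ℂ) ^ (-(w.mult : ℂ) * (1 - 2 * ν w)) with hT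
  have h1 : ∀ j : (∀ w : InfinitePlace K, Fin (N w + 1)),
      psi N σ ν (m j * h * (m j)⁻¹ * k) = ∏ w, T w (j w) := by
    intro j
    unfold psi
    refine Finset.prod_congr rfl fun w _ => ?_
    have h2 := hm j h w
    have h3 : rn w ((m j * h * (m j)⁻¹) 1) = rn w (h 1) := by
      have h4 : rn w ((m j * h * (m j)⁻¹) 1) ^ 2 = rn w (h 1) ^ 2 := by
        have h5 := rn_sq_ev w ((m j * h * (m j)⁻¹) 1)
        have h6 := rn_sq_ev w (h 1)
        rw [h2.1, h2.2] at h5
        have h7 : ((rn w ((m j * h * (m j)⁻¹) 1) ^ 2 : ℝ) : ℂ) = ((rn w (h 1) ^ 2 : ℝ) : ℂ) := by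
          rw [h5, h6]
          have h8 : ‖(if IsReal w then 1 else
              Complex.exp (2 * Real.pi * Complex.I / ((N w + 1 : ℕ) : ℂ)) ^ (j w : ℕ))‖ = 1 := by
            have : (2 * Real.pi * Complex.I / ((N w + 1 : ℕ) : ℂ)) =
                (((2 * Real.pi / (N w + 1 : ℕ) : ℝ) : ℂ) * Complex.I) := by push_cast; ring
            split_ifs
            · simp
            · rw [norm_pow, this, Complex.norm_exp_ofReal_mul_I, one_pow]
          set z := (if IsReal w then 1 else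
              Complex.exp (2 * Real.pi * Complex.I / ((N w + 1 : ℕ) : ℂ)) ^ (j w : ℕ)) with hz
          have h9 := Complex.normSq_eq_conj_mul_self (z := z)
          rw [Complex.normSq_eq_norm_sq, h8] at h9
          simp only [one_pow, Complex.ofReal_one] at h9
          rw [map_mul]
          linear_combination (-(conj (ev w (h 1 0)) * ev w (h 1 0))) * h9
        exact_mod_cast h7
      exact (sq_eq_sq₀ (rn_nonneg _ _) (rn_nonneg _ _)).1 h4
    simp only [hT]
    by_cases hw : IsReal w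
    · rw [if_pos hw, psiw_real hw N σ ν _ hk]
      congr 1
      unfold psiw
      rw [if_pos hw, if_pos hw, h2.1, h2.2, if_pos hw, one_mul, h3]
    · rw [if_neg hw]
      unfold psiw
      rw [if_neg hw, rn_mul_U hk, h3, div_pow]
      congr 3
      rw [row1_mul (m j * h * (m j)⁻¹) k, ev_add, ev_mul, ev_mul, h2.1, h2.2, if_neg hw]
      ring
  simp only [h1]
  have h2 := Finset.prod_univ_sum (fun w : InfinitePlace K => (Finset.univ : Finset (Fin (N w + 1)))) T
  rw [Fintype.piFinset_univ] at h2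
  rw [← h2]
  unfold psi
  rw [← Finset.prod_mul_distrib, ← Finset.prod_mul_distrib]
  refine Finset.prod_congr rfl fun w _ => ?_
  simp only [hT]
  by_cases hw : IsReal w
  · simp only [if_pos hw]
    rw [Finset.sum_const, Finset.card_univ, Fintype.card_fin, nsmul_eq_mul]
    push_cast
    rfl
  · simp only [if_neg hw]
    rw [← Finset.sum_mul, ← Finset.sum_div]
    have h3 := Fin.sum_univ_eq_sum_range (fun i => (Complex.exp (2 * Real.pi * Complex.I / ((N w + 1 : ℕ) : ℂ)) ^ i *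
      (ev w (h 1 0) * ev w (k 0 1)) + ev w (h 1 1) * ev w (k 1 1)) ^ N w) (N w + 1)
    rw [h3, sum_roots (Complex.isPrimitiveRoot_exp (N w + 1) (by omega))]
    unfold psiw
    rw [if_neg hw, if_neg hw, rn_U hk, Complex.ofReal_one, Complex.one_cpow, div_one, div_pow, mul_pow]
    ring

end Pool.Agent.T2h74
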