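import Pool.Agent.T2h74.TY2
import Pool.Agent.T2h77.Hecke4

/-!
# The reproducing kernel and the pointwise bound
-/

set_option autoImplicit false
set_option linter.unusedSectionVars false
set_option linter.deprecated false

open NumberField NumberField.mixedEmbedding MeasureTheory Matrix NumberField.InfinitePlace
open scoped MatrixGroups ENNReal ComplexConjugate
open Pool.Agent.T2h77 Pool.Agent.T2h77.An

noncomputable section

namespace Pool.Agent.T2h74

variable {K : Type} [Field K] [NumberField K]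

attribute [local irreducible] psi nf

lemma int_conj [(mu K).IsMulRightInvariant] (F : GG K → ℂ) (k : GG K) :
    ∫ h, F (k * h * k⁻¹) ∂(mu K) = ∫ h, F h ∂(mu K) := by
  have h1 := integral_mul_left_eq_self (μ := mu K) (fun x => F (x * k⁻¹)) k
  rw [h1]
  exact integral_mul_right_eq_self (μ := mu K) F k⁻¹

/-- the kernel as a complex function -/
def kc (δ : ℝ) (h : GG K) : ℂ := (ker0 δ h : ℂ)

lemma continuous_kc (δ : ℝ) : Continuous (kc δ : GG K → ℂ) :=
  Complex.continuous_ofReal.comp (continuous_ker0 δ)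

lemma hcs_kc {δ : ℝ} (hδ : δ ≤ 1) : HasCompactSupport (kc δ : GG K → ℂ) :=
  (hcs_ker0 (K := K) hδ).comp_left (g := fun x : ℝ => (x : ℂ)) (by simp)

lemma int_kc {δ : ℝ} (hδ : δ ≤ 1) {F : GG K → ℂ} (hF : Continuous F) :
    Integrable (fun h => kc δ h * F h) (mu K) := by
  have h1 : Continuous fun h : GG K => kc δ h * F h := (continuous_kc δ).mul hF
  exact h1.integrable_of_hasCompactSupport (hcs_kc hδ).mul_right

/-- convolution with the kernel at the unitary elements -/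
lemma conv_U [(mu K).IsMulRightInvariant] (N : InfinitePlace K → ℕ) (σ : InfinitePlace K → ℤˣ)
    (ν : InfinitePlace K → ℂ) {δ : ℝ} (hδ : δ ≤ 1) {k : GG K} (hk : IsU k) :
    ∫ h, kc δ h * psi N σ ν (k * h) ∂(mu K) =
      (∫ h, kc δ h * psi N σ ν h ∂(mu K)) * psi N σ ν k := by
  classical
  obtain ⟨m, hmU, hm⟩ := exists_dg (K := K) N
  have hc := continuous_psi (K := K) N σ ν
  have hcj : ∀ {k : GG K}, IsU k → ∀ h : GG K, kc δ (k * h * k⁻¹) = kc δ h := by
    intro k hk h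
    unfold kc
    rw [ker0_conj δ hk]
  have h1 : ∫ h, kc δ h * psi N σ ν (k * h) ∂(mu K) =
      ∫ h, kc δ h * psi N σ ν (h * k) ∂(mu K) := by
    rw [← int_conj (fun h => kc δ h * psi N σ ν (k * h)) k⁻¹]
    congr 1
    ext h
    rw [hcj hk.inv, inv_inv]
    congr 2
    group
  have h2 : ∀ j, ∫ h, kc δ h * psi N σ ν (h * k) ∂(mu K) =
      ∫ h, kc δ h * psi N σ ν (m j * h * (m j)⁻¹ * k) ∂(mu K) := by
    intro j
    rw [← int_conj (fun h => kc δ h * psi N σ ν (h * k)) (m j)]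
    congr 1
    ext h
    rw [hcj (hmU j)]
  have h3 : ∀ j, Integrable (fun h => kc δ h * psi N σ ν (m j * h * (m j)⁻¹ * k)) (mu K) := by
    intro j
    refine int_kc hδ ?_
    have e0 : Continuous fun h : GG K => m j * h * (m j)⁻¹ * k :=
      ((continuous_const.mul continuous_id).mul continuous_const).mul continuous_const
    have e1 := hc.comp e0
    simp only [Function.comp_def] at e1
    exact e1
  have h4 : ∑ j : (∀ w : InfinitePlace K, Fin (N w + 1)),
      ∫ h, kc δ h * psi N σ ν (h * k) ∂(mu K) =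
      (∏ w, ((N w : ℂ) + 1)) * ((∫ h, kc δ h * psi N σ ν h ∂(mu K)) * psi N σ ν k) := by
    rw [Finset.sum_congr rfl fun j _ => h2 j, ← integral_finsetSum _ fun j _ => h3 j]
    have e : ∀ h : GG K, ∑ j, kc δ h * psi N σ ν (m j * h * (m j)⁻¹ * k) =
        (∏ w, ((N w : ℂ) + 1)) * psi N σ ν k * (kc δ h * psi N σ ν h) := by
      intro h
      rw [← Finset.mul_sum, psi_avg N σ ν hm h hk]
      ring
    simp only [e]
    rw [integral_const_mul]
    ring
  rw [Finset.sum_const, Finset.card_univ, Fintype.card_pi, nsmul_eq_mul] at h4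
  have h5 : ((∏ w : InfinitePlace K, Fintype.card (Fin (N w + 1)) : ℕ) : ℂ) =
      ∏ w, ((N w : ℂ) + 1) := by
    push_cast
    refine Finset.prod_congr rfl fun w _ => ?_
    simp
  rw [h5] at h4
  have h6 : (∏ w : InfinitePlace K, ((N w : ℂ) + 1)) ≠ 0 :=
    Finset.prod_ne_zero_iff.2 fun w _ => by exact_mod_cast Nat.succ_ne_zero (N w)
  rw [h1]
  exact mul_left_cancel₀ h6 h4

/-- the standard function is an eigenfunction of the convolution with the kernel -/
lemma conv_psi [(mu K).IsMulRightInvariant] (N : InfinitePlace K → ℕ) (σ : InfinitePlace K → ℤˣ)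
    (ν : InfinitePlace K → ℂ) {δ : ℝ} (hδ : δ ≤ 1) (g : GG K) :
    ∫ h, kc δ h * psi N σ ν (g * h) ∂(mu K) =
      (∫ h, kc δ h * psi N σ ν h ∂(mu K)) * psi N σ ν g := by
  obtain ⟨k, hk, χ, hχ, hkg⟩ := exists_U N σ ν g
  have h1 := conv_U N σ ν hδ hk
  have h2 := hkg 1
  rw [mul_one, mul_one] at h2
  simp only [hkg, h2] at h1
  have h3 : ∀ h : GG K, kc δ h * (χ * psi N σ ν (g * h)) =
      χ * (kc δ h * psi N σ ν (g * h)) := fun h => by ring
  simp only [h3] at h1
  rw [integral_const_mul] at h1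
  apply mul_left_cancel₀ hχ
  rw [h1]
  ring

lemma eq_one_of_nf {h : GG K} (hh : nf h ≤ 0) : h = 1 := by
  have h1 : ∀ w, mn w h ^ 2 - 2 * (ev w (h 0 0 + h 1 1)).re + 2 ≤ 0 := fun w =>
    (nf_term_le w h).trans hh
  have h2 : ∀ w, ev w (h 0 0) = 1 ∧ ev w (h 0 1) = 0 ∧ ev w (h 1 0) = 0 ∧ ev w (h 1 1) = 1 := by
    intro w
    have h3 := h1 w
    rw [nf_term] at h3
    have p1 := sq_nonneg ‖ev w (h 0 0) - 1‖
    have p2 := sq_nonneg ‖ev w (h 0 1)‖
    have p3 := sq_nonneg ‖ev w (h 1 0)‖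
    have p4 := sq_nonneg ‖ev w (h 1 1) - 1‖
    have q1 : ‖ev w (h 0 0) - 1‖ ^ 2 = 0 := by linarith
    have q2 : ‖ev w (h 0 1)‖ ^ 2 = 0 := by linarith
    have q3 : ‖ev w (h 1 0)‖ ^ 2 = 0 := by linarith
    have q4 : ‖ev w (h 1 1) - 1‖ ^ 2 = 0 := by linarith
    simp only [ne_eq, OfNat.ofNat_ne_zero, not_false_eq_true, pow_eq_zero_iff, norm_eq_zero] at q1 q2 q3 q4
    exact ⟨sub_eq_zero.1 q1, q2, q3, sub_eq_zero.1 q4⟩
  have e00 : h 0 0 = (1 : GG K) 0 0 := by
    refine ev_ext fun w => ?_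
    rw [(h2 w).1]
    simp [ev_one]
  have e01 : h 0 1 = (1 : GG K) 0 1 := by
    refine ev_ext fun w => ?_
    rw [(h2 w).2.1]
    simp [ev_zero]
  have e10 : h 1 0 = (1 : GG K) 1 0 := by
    refine ev_ext fun w => ?_
    rw [(h2 w).2.2.1]
    simp [ev_zero]
  have e11 : h 1 1 = (1 : GG K) 1 1 := by
    refine ev_ext fun w => ?_
    rw [(h2 w).2.2.2]
    simp [ev_one]
  refine Matrix.SpecialLinearGroup.ext _ _ fun i j => ?_
  fin_cases i <;> fin_cases j
  exacts [e00, e01, e10, e11]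

/-- small `δ`, for one weight -/
lemma exists_delta1 (N : InfinitePlace K → ℕ) (σ : InfinitePlace K → ℤˣ) (L : ℝ) :
    ∃ δ : ℝ, 0 < δ ∧ δ ≤ 1 ∧ ∀ ν : InfinitePlace K → ℂ, (∀ w, ‖ν w‖ ≤ L) →
      ∀ h : GG K, nf h < δ → 1 / 2 ≤ (psi N σ ν h).re := by
  set D : Set (InfinitePlace K → ℂ) := Set.pi Set.univ fun _ => Metric.closedBall (0 : ℂ) L with hD
  have hDc : IsCompact D := isCompact_univ_pi fun _ => isCompact_closedBall _ _
  set C : Set ((InfinitePlace K → ℂ) × GG K) :=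
    (D ×ˢ ball (fun _ : InfinitePlace K => (4 : ℝ))) ∩ {p | (psi N σ p.1 p.2).re ≤ 1 / 2} with hC
  have hcp : Continuous fun p : (InfinitePlace K → ℂ) × GG K => (psi N σ p.1 p.2).re :=
    Complex.continuous_re.comp (continuous_psi2 N σ)
  have hCc : IsCompact C :=
    (hDc.prod (isCompact_ball _)).inter_right (isClosed_le hcp continuous_const)
  have hball : ∀ h : GG K, nf h < 1 → h ∈ ball (fun _ : InfinitePlace K => (4 : ℝ)) := by
    intro h hh
    refine ker0_supp (δ := 1) le_rfl ?_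
    unfold ker0
    rw [max_eq_right (by linarith)]
    linarith
  by_cases hne : C.Nonempty
  · have hcn : Continuous fun p : (InfinitePlace K → ℂ) × GG K => nf p.2 :=
      continuous_nf.comp continuous_snd
    obtain ⟨p0, hp0, hmin⟩ := hCc.exists_isMinOn hne hcn.continuousOn
    have hpos : 0 < nf p0.2 := by
      by_contra hcon
      have h1 := eq_one_of_nf (not_lt.1 hcon)
      have h2 : (psi N σ p0.1 p0.2).re ≤ 1 / 2 := hp0.2
      rw [h1, psi_one] at h2
      simp at h2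
      linarith
    refine ⟨min 1 (nf p0.2), lt_min one_pos hpos, min_le_left _ _, fun ν hν h hh => ?_⟩
    by_contra hcon
    push Not at hcon
    have h1 : (ν, h) ∈ C := by
      refine ⟨⟨?_, hball h (lt_of_lt_of_le hh (min_le_left _ _))⟩, hcon.le⟩
      intro w _
      simpa using hν w
    have h2 : nf p0.2 ≤ nf h := hmin h1
    have h4 := lt_of_lt_of_le hh (min_le_right _ _)
    linarith
  · refine ⟨1, one_pos, le_rfl, fun ν hν h hh => ?_⟩
    by_contra hcon
    push Not at hcon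
    refine hne ⟨(ν, h), ⟨?_, hball h hh⟩, hcon.le⟩
    intro w _
    simpa using hν w

/-- small `δ`, for all weights up to `L` -/
lemma exists_delta (K : Type) [Field K] [NumberField K] (L : ℕ) :
    ∃ δ : ℝ, 0 < δ ∧ δ ≤ 1 ∧ ∀ (N : InfinitePlace K → ℕ) (σ : InfinitePlace K → ℤˣ)
      (ν : InfinitePlace K → ℂ), (∀ w, N w ≤ L) → (∀ w, ‖ν w‖ ≤ L) →
      ∀ h : GG K, ker0 δ h ≠ 0 → 1 / 2 ≤ (psi N σ ν h).re := by
  have h1 := fun x : (InfinitePlace K → Fin (L + 1)) × (InfinitePlace K → ℤˣ) =>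
    exists_delta1 (K := K) (fun w => (x.1 w : ℕ)) x.2 (L : ℝ)
  choose δ hδ using h1
  obtain ⟨x0, hx0⟩ := Finite.exists_min δ
  refine ⟨δ x0, (hδ x0).1, (hδ x0).2.1, fun N σ ν hN hν h hh => ?_⟩
  have h2 := (hδ (fun w => ⟨N w, Nat.lt_succ_of_le (hN w)⟩, σ)).2.2 ν hν h
    (lt_of_lt_of_le (ker0_pos hh) (hx0 _))
  exact h2

/-- functions with the reproducing property -/
def RP (Φ : GG K → ℂ) (c : ℂ) (f : GG K → ℂ) : Prop :=
  ∀ g, ∫ h, Φ h * f (g * h) ∂(mu K) = c * f g

/-- the reproducing kernel -/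
theorem kernel (K : Type) [Field K] [NumberField K] [(mu K).IsMulRightInvariant] (L : ℕ) :
    ∃ δ c₀ : ℝ, 0 < δ ∧ δ ≤ 1 ∧ 0 < c₀ ∧ ∀ (N : InfinitePlace K → ℕ) (σ : InfinitePlace K → ℤˣ)
      (ν : InfinitePlace K → ℂ), (∀ w, N w ≤ L) → (∀ w, ‖ν w‖ ≤ L) → ∃ c : ℂ, c₀ ≤ ‖c‖ ∧
      ∀ f : GG K → ℂ, HasType N σ ν f → RP (kc δ) c f := by
  obtain ⟨δ, hδ0, hδ1, hδ⟩ := exists_delta K L
  have hint0 : Integrable (ker0 δ : GG K → ℝ) (mu K) :=
    (continuous_ker0 δ).integrable_of_hasCompactSupport (hcs_ker0 hδ1)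
  have hpos : 0 < ∫ h : GG K, ker0 δ h ∂(mu K) := by
    refine Continuous.integral_pos_of_hasCompactSupport_nonneg_nonzero (x := 1)
      (continuous_ker0 δ) (hcs_ker0 hδ1) (fun h => ker0_nonneg δ h) ?_
    unfold ker0
    rw [nf_one, sub_zero, max_eq_right hδ0.le]
    exact hδ0.ne'
  refine ⟨δ, (∫ h : GG K, ker0 δ h ∂(mu K)) * (1 / 2), hδ0, hδ1, by positivity,
    fun N σ ν hN hν => ⟨∫ h, kc δ h * psi N σ ν h ∂(mu K), ?_, fun f hf =>
      hf _ _ (continuous_kc δ) (hcs_kc hδ1) fun g => conv_psi N σ ν hδ1 g⟩⟩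
  have hint : Integrable (fun h : GG K => kc δ h * psi N σ ν h) (mu K) :=
    int_kc hδ1 (continuous_psi N σ ν)
  have h2 : (∫ h, kc δ h * psi N σ ν h ∂(mu K)).re = ∫ h : GG K, ker0 δ h * (psi N σ ν h).re ∂(mu K) := by
    have h3 := integral_re (μ := mu K) (𝕜 := ℂ) hint
    simp only [RCLike.re_to_complex] at h3
    rw [← h3]
    congr 1
    ext h
    unfold kc
    simp
  refine le_trans ?_ (Complex.re_le_norm _)
  rw [h2, ← integral_mul_const]
  have hint2 : Integrable (fun h : GG K => ker0 δ h * (psi N σ ν h).re) (mu K) := by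
    have h3 : Continuous fun h : GG K => ker0 δ h * (psi N σ ν h).re :=
      (continuous_ker0 δ).mul (Complex.continuous_re.comp (continuous_psi N σ ν))
    exact h3.integrable_of_hasCompactSupport (hcs_ker0 hδ1).mul_right
  refine integral_mono (hint0.mul_const _) hint2 fun h => ?_
  simp only
  by_cases hh : ker0 δ h = 0
  · rw [hh]; simp
  · exact mul_le_mul_of_nonneg_left (hδ N σ ν hN hν h hh) (ker0_nonneg δ h)

lemma RP.add {Φ : GG K → ℂ} (h1 : Continuous Φ) (h2 : HasCompactSupport Φ) {c : ℂ} {f f' : GG K → ℂ}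
    (hc : Continuous f) (hc' : Continuous f') (hf : RP Φ c f) (hf' : RP Φ c f') :
    RP Φ c (f + f') := by
  intro g
  have hi : ∀ f : GG K → ℂ, Continuous f → Integrable (fun h => Φ h * f (g * h)) (mu K) := by
    intro f hf
    refine Continuous.integrable_of_hasCompactSupport ?_ h2.mul_right
    exact h1.mul (hf.comp (continuous_const.mul continuous_id))
  simp only [Pi.add_apply, mul_add]
  rw [integral_add (hi f hc) (hi f' hc'), hf g, hf' g]

lemma RP.smul {Φ : GG K → ℂ} {c : ℂ} (a : ℂ) {f : GG K → ℂ} (hf : RP Φ c f) : RP Φ c (a • f) := by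
  intro g
  have e : ∀ h, Φ h * (a • f) (g * h) = a * (Φ h * f (g * h)) := fun h => by
    rw [Pi.smul_apply, smul_eq_mul]; ring
  simp only [e]
  rw [integral_const_mul, hf g, Pi.smul_apply, smul_eq_mul]
  ring

lemma RP.zero {Φ : GG K → ℂ} {c : ℂ} : RP Φ c (0 : GG K → ℂ) := by
  intro g
  simp

/-- the pointwise bound for the convolution with the kernel -/
lemma conv_bound {δ : ℝ} (hδ0 : 0 ≤ δ) (hδ : δ ≤ 1) (f : GG K → ℂ) (g : GG K) :
    ‖∫ h, kc δ h * f (g * h) ∂(mu K)‖ₑ ≤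
      Ap (mu K) (ball (fun _ : InfinitePlace K => (4 : ℝ))) (fun x => ‖f x‖ₑ) g := by
  calc ‖∫ h, kc δ h * f (g * h) ∂(mu K)‖ₑ
      ≤ ∫⁻ h, ‖kc δ h * f (g * h)‖ₑ ∂(mu K) := enorm_integral_le_lintegral_enorm _
    _ ≤ Ap (mu K) (ball (fun _ : InfinitePlace K => (4 : ℝ))) (fun x => ‖f x‖ₑ) g := by
        unfold Ap
        rw [← lintegral_indicator (isClosed_ball _).measurableSet]
        refine lintegral_mono fun h => ?_
        simp only
        by_cases hh : ker0 δ h = 0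
        · have : kc δ h = 0 := by unfold kc; rw [hh]; simp
          rw [this]; simp
        · rw [Set.indicator_of_mem (ker0_supp hδ hh), enorm_mul]
          have h2 : ‖kc δ h‖ₑ ≤ 1 := by
            unfold kc
            rw [← ofReal_norm, Complex.norm_real, Real.norm_of_nonneg (ker0_nonneg δ h)]
            exact ENNReal.ofReal_le_one.2 ((ker0_le hδ0 h).trans hδ)
          calc ‖kc δ h‖ₑ * ‖f (g * h)‖ₑ ≤ 1 * ‖f (g * h)‖ₑ := by gcongr
            _ = _ := one_mul _

end Pool.Agent.T2h74
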