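import Pool.Agent.T2h74.TY3

/-!
# The trace inequality for functions with the reproducing property
-/

set_option autoImplicit false
set_option linter.unusedSectionVars false
set_option linter.deprecated false

open NumberField NumberField.mixedEmbedding MeasureTheory Matrix NumberField.InfinitePlace
open scoped MatrixGroups ENNReal ComplexConjugate
open Pool.Agent.T2h77 Pool.Agent.T2h77.An

noncomputable section

namespace Pool.Agent.T2h74

section general

variable {G : Type} [Group G] [TopologicalSpace G] [IsTopologicalGroup G] [LocallyCompactSpace G]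
  [SecondCountableTopology G] [T2Space G] [MeasurableSpace G] [BorelSpace G]
variable {μ : Measure G} {Γ : Subgroup G} {𝓕 : Set G}

/-- convolution with a symmetric finite measure is a symmetric operator -/
theorem symmM [μ.IsHaarMeasure] [μ.IsMulRightInvariant] [Countable Γ]
    (h𝓕 : IsFundamentalDomain Γ 𝓕 μ) {m : Measure G} [IsFiniteMeasure m]
    (hm : ∀ F : G → ℂ, ∫ h, F h⁻¹ ∂m = ∫ h, F h ∂m) {f f' : G → ℂ} (hf : LI μ Γ 𝓕 f)
    (hf' : LI μ Γ 𝓕 f') :
    ∫ g in 𝓕, conj (∫ h, f (g * h) ∂m) * f' g ∂μ = ∫ g in 𝓕, conj (f g) * (∫ h, f' (g * h) ∂m) ∂μ := by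
  have hfc := hf.cont
  have hfc' := hf'.cont
  have key : ∀ (φ ψ : G → ℂ), LI μ Γ 𝓕 φ → LI μ Γ 𝓕 ψ →
      Integrable (fun p : G × G => conj (φ (p.1 * p.2)) * ψ p.1) ((μ.restrict 𝓕).prod m) := by
    intro φ ψ hφ hψ
    have hc1 := hφ.cont
    have hc2 := hψ.cont
    refine ⟨(Continuous.aestronglyMeasurable (by fun_prop)), ?_⟩
    rw [hasFiniteIntegral_iff_enorm]
    refine lt_of_le_of_lt (lintegral_mono fun g => enorm_mul_le_sq _ _) ?_
    have h1 : ∀ z : ℂ, ‖(conj z : ℂ)‖ₑ = ‖z‖ₑ := fun z => by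
      rw [← ofReal_norm, RCLike.norm_conj, ofReal_norm]
    simp only [h1]
    rw [lintegral_prod_symm _ (by fun_prop)]
    have h2 : ∀ h : G, ∫⁻ g in 𝓕, (‖φ (g * h)‖ₑ ^ 2 + ‖ψ g‖ₑ ^ 2) ∂μ =
        (∫⁻ g in 𝓕, ‖φ g‖ₑ ^ 2 ∂μ) + ∫⁻ g in 𝓕, ‖ψ g‖ₑ ^ 2 ∂μ := by
      intro h
      have hm : Measurable fun g : G => ‖φ (g * h)‖ₑ ^ 2 :=
        (Continuous.measurable (by fun_prop : Continuous fun g : G => φ (g * h))).enorm.pow_const 2
      rw [lintegral_add_left hm]
      congr 1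
      exact An.trans h𝓕 (fun g => ‖φ g‖ₑ ^ 2) (fun γ hγ g => by simp only [hφ.inv γ hγ]) h
    simp only [h2]
    rw [lintegral_const]
    exact ENNReal.mul_lt_top (ENNReal.add_lt_top.2 ⟨hφ.fin.lt_top, hψ.fin.lt_top⟩)
      (measure_lt_top _ _)
  have e1 : ∀ g, conj (∫ h, f (g * h) ∂m) * f' g = ∫ h, conj (f (g * h)) * f' g ∂m := by
    intro g
    rw [← integral_conj, ← integral_mul_const]
  have e2 : ∀ g, conj (f g) * (∫ h, f' (g * h) ∂m) = ∫ h, conj (f g) * f' (g * h) ∂m := by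
    intro g
    rw [← integral_const_mul]
  simp only [e1, e2]
  rw [integral_integral_swap (key f f' hf hf')]
  have e3 : ∀ h : G, ∫ g in 𝓕, conj (f (g * h)) * f' g ∂μ = ∫ g in 𝓕, conj (f g) * f' (g * h⁻¹) ∂μ := by
    intro h
    have := transC h𝓕 (fun g => conj (f g) * f' (g * h⁻¹)) (fun γ hγ g => by
      simp only [mul_assoc, hf.inv γ hγ, hf'.inv γ hγ]) h
    rw [← this]
    simp only [mul_inv_cancel_right]
  simp only [e3]
  rw [hm (fun h => ∫ g in 𝓕, conj (f g) * f' (g * h) ∂μ)]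
  have h5 : Integrable (fun p : G × G => conj (f p.1) * f' (p.1 * p.2)) ((μ.restrict 𝓕).prod m) := by
    have := (key f' f hf' hf)
    have h6 : (fun p : G × G => conj (f p.1) * f' (p.1 * p.2)) =
        fun p => conj (conj (f' (p.1 * p.2)) * f p.1) := by
      ext p
      rw [map_mul, Complex.conj_conj, mul_comm]
    rw [h6]
    exact (Complex.conjCLE : ℂ →L[ℝ] ℂ).integrable_comp this
  exact (integral_integral_swap h5).symm

end general

variable {K : Type} [Field K] [NumberField K]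

attribute [local irreducible] psi nf

lemma nf_inv (h : GG K) : nf h⁻¹ = nf h := by
  unfold nf
  refine Finset.sum_congr rfl fun w _ => ?_
  rw [mn_inv, inv_apply00, inv_apply11, add_comm (h 1 1)]

lemma ker0_inv (δ : ℝ) (h : GG K) : ker0 δ h⁻¹ = ker0 δ h := by
  unfold ker0; rw [nf_inv]

variable {Γ : Subgroup (GG K)} {𝓕 : Set (GG K)}

lemma HP_const_mul (s : Finset (GG K)) (a : ℝ≥0∞) (F : GG K → ℝ≥0∞) (g : GG K) :
    HP s (fun x => a * F x) g = a * HP s F g := by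
  unfold HP
  rw [Finset.mul_sum]

variable [Countable Γ] [hF : Fact (IsFundamentalDomain Γ 𝓕 (mu K))]

/-- relation of the eigenvalues -/
lemma inner_relK [(mu K).IsMulRightInvariant] {δ : ℝ} (hδ : δ ≤ 1) {u v : LE (mu K) Γ 𝓕} {a b : ℂ}
    (hu : RP (kc δ) a (u : GG K → ℂ)) (hv : RP (kc δ) b (v : GG K → ℂ)) :
    conj a * inner ℂ u v = b * inner ℂ u v := by
  have hinv : (mu K).IsInvInvariant := invInvariant (mu K)
  set m : Measure (GG K) := (mu K).withDensity fun h => ENNReal.ofReal (ker0 δ h) with hm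
  have hmeas : Measurable fun h : GG K => ENNReal.ofReal (ker0 δ h) :=
    (continuous_ker0 δ).measurable.ennreal_ofReal
  have hint0 : Integrable (ker0 δ : GG K → ℝ) (mu K) :=
    (continuous_ker0 δ).integrable_of_hasCompactSupport (hcs_ker0 hδ)
  have hfin : IsFiniteMeasure m := isFiniteMeasure_withDensity_ofReal hint0.2
  have hI : ∀ F : GG K → ℂ, ∫ h, F h ∂m = ∫ h, kc δ h * F h ∂(mu K) := by
    intro F
    rw [hm, integral_withDensity_eq_integral_toReal_smul hmeas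
      (Filter.Eventually.of_forall fun h => ENNReal.ofReal_lt_top)]
    congr 1
    ext h
    rw [ENNReal.toReal_ofReal (ker0_nonneg δ h)]
    unfold kc
    rw [Complex.real_smul]
  have hsy : ∀ F : GG K → ℂ, ∫ h, F h⁻¹ ∂m = ∫ h, F h ∂m := by
    intro F
    rw [hI, hI, ← integral_inv_eq_self _ (mu K)]
    congr 1
    ext h
    unfold kc
    rw [ker0_inv, inv_inv]
  have h := symmM hF.out hsy (LE.li u) (LE.li v)
  simp only [hI] at h
  have hu' : ∀ g, ∫ h, kc δ h * (u : GG K → ℂ) (g * h) ∂(mu K) = a * (u : GG K → ℂ) g := hu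
  have hv' : ∀ g, ∫ h, kc δ h * (v : GG K → ℂ) (g * h) ∂(mu K) = b * (v : GG K → ℂ) g := hv
  simp only [hu', hv'] at h
  rw [LE.inner_def, ← integral_const_mul, ← integral_const_mul]
  have e1 : ∀ z, conj a * (conj ((u : GG K → ℂ) z) * (v : GG K → ℂ) z) =
      conj (a * (u : GG K → ℂ) z) * (v : GG K → ℂ) z := fun z => by rw [map_mul, mul_assoc]
  have e2 : ∀ z, b * (conj ((u : GG K → ℂ) z) * (v : GG K → ℂ) z) =
      conj ((u : GG K → ℂ) z) * (b * (v : GG K → ℂ) z) := fun z => by ring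
  simp only [e1, e2]
  exact h

/-- joint eigenvectors with the reproducing property -/
def JW {δ : ℝ} (hδ : δ ≤ 1) (s s' : Finset (GG K)) (l : ℂ × ℂ × ℂ) :
    Submodule ℂ (LE (mu K) Γ 𝓕) where
  carrier := {u | RP (kc δ) l.1 (u : GG K → ℂ) ∧ ∀ g, HT s (u : GG K → ℂ) g = l.2.1 * (u : GG K → ℂ) g ∧
    HT s' (u : GG K → ℂ) g = l.2.2 * (u : GG K → ℂ) g}
  add_mem' := by
    rintro u v ⟨hu1, hu2⟩ ⟨hv1, hv2⟩
    refine ⟨RP.add (continuous_kc δ) (hcs_kc hδ) (LE.li u).cont (LE.li v).cont hu1 hv1,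
      fun g => ⟨?_, ?_⟩⟩
    · rw [Submodule.coe_add, HT_add, (hu2 g).1, (hv2 g).1, Pi.add_apply, mul_add]
    · rw [Submodule.coe_add, HT_add, (hu2 g).2, (hv2 g).2, Pi.add_apply, mul_add]
  zero_mem' := ⟨RP.zero, fun g => ⟨by simp [HT], by simp [HT]⟩⟩
  smul_mem' := by
    rintro a u ⟨hu1, hu2⟩
    refine ⟨RP.smul a hu1, fun g => ⟨?_, ?_⟩⟩
    · rw [Submodule.coe_smul, HT_smul, (hu2 g).1, Pi.smul_apply, smul_eq_mul]; ring
    · rw [Submodule.coe_smul, HT_smul, (hu2 g).2, Pi.smul_apply, smul_eq_mul]; ring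

/-- the trace inequality -/
theorem traceT [(mu K).IsMulRightInvariant] {δ : ℝ} (hδ0 : 0 ≤ δ) (hδ : δ ≤ 1)
    {s s' : Finset (GG K)} (hs : HS Γ s) (hs' : HS Γ s') {k : ℕ} (c l l' : Fin k → ℂ)
    (φ : Fin k → LE (mu K) Γ 𝓕) (hR : ∀ i, RP (kc δ) (c i) (φ i : GG K → ℂ))
    (hl : ∀ i g, HT s (φ i : GG K → ℂ) g = l i * (φ i : GG K → ℂ) g)
    (hl' : ∀ i g, HT s' (φ i : GG K → ℂ) g = l' i * (φ i : GG K → ℂ) g)
    (hli : LinearIndependent ℂ φ) {W : Set (GG K)} (hW : MeasurableSet W) {Λ : ℝ≥0∞}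
    (hΛ : ∀ F : GG K → ℝ≥0∞, Measurable F → (∀ γ ∈ Γ, ∀ g, F (γ * g) = F g) →
      ∫⁻ g in 𝓕 ∩ W, HP s' (Ap (mu K) (ball (fun _ : InfinitePlace K => (4 : ℝ))) F) g ^ 2 ∂(mu K) ≤
        Λ * ∫⁻ g in 𝓕, F g ^ 2 ∂(mu K))
    (hll : ∀ i, 2 * Λ ≤ ‖l' i * c i‖ₑ ^ 2) (h0 : ∀ i, l' i * c i ≠ 0) :
    ∑ i, ‖l i * c i‖ₑ ^ 2 ≤ 2 * ∫⁻ g in 𝓕 ∩ Wᶜ, ∑ η ∈ s, ∑' x : Ss Γ s,
      kk (mu K) (ball (fun _ : InfinitePlace K => (4 : ℝ))) (g⁻¹ * x * η * g) ∂(mu K) := by
  have hB : SC (mu K) (ball (fun _ : InfinitePlace K => (4 : ℝ))) := SC_ball _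
  obtain ⟨e, he, hm⟩ := gs_abs (fun l => JW (Γ := Γ) (𝓕 := 𝓕) hδ s s' l)
    (fun x y hxy u hu v hv => by
      by_contra h
      apply hxy
      have a0 : x.1 = y.1 := eq_of_rel (inner_relK hδ hu.1 hu.1) (inner_relK hδ hu.1 hv.1) h
      have a1 : x.2.1 = y.2.1 := eq_of_rel
        (inner_relH hs (fun g => (hu.2 g).1) (fun g => (hu.2 g).1))
        (inner_relH hs (fun g => (hu.2 g).1) (fun g => (hv.2 g).1)) h
      have a2 : x.2.2 = y.2.2 := eq_of_rel
        (inner_relH hs' (fun g => (hu.2 g).2) (fun g => (hu.2 g).2))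
        (inner_relH hs' (fun g => (hu.2 g).2) (fun g => (hv.2 g).2)) h
      exact Prod.ext a0 (Prod.ext a1 a2))
    (fun i => (c i, l i, l' i)) φ (fun i => ⟨hR i, fun g => ⟨hl i g, hl' i g⟩⟩) hli
  have hmain := traceG hs hB.ms (fun i => l i * c i) (fun i => l' i * c i) e he (A := 1) (A' := 1)
    (s' := s') (B' := ball (fun _ : InfinitePlace K => (4 : ℝ))) ?_ ?_ hW hΛ
    (by simpa using hll) h0
  · simpa using hmain
  · intro a g
    -- the convolution of the sum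
    have hsum : ∀ t : Finset (Fin k), ∀ g, Integrable (fun h => kc δ h *
          ((∑ i ∈ t, a i • e i : LE (mu K) Γ 𝓕) : GG K → ℂ) (g * h)) (mu K) ∧
        ∫ h, kc δ h * ((∑ i ∈ t, a i • e i : LE (mu K) Γ 𝓕) : GG K → ℂ) (g * h) ∂(mu K) =
        ∑ i ∈ t, a i * (c i * (e i : GG K → ℂ) g) := by
      intro t g
      have hI : ∀ u : LE (mu K) Γ 𝓕, Integrable (fun h => kc δ h * (u : GG K → ℂ) (g * h)) (mu K) := by
        intro u
        exact int_kc hδ ((LE.li u).cont.comp (continuous_const.mul continuous_id))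
      refine ⟨hI _, ?_⟩
      induction t using Finset.cons_induction with
      | empty => simp
      | cons i t hit ih =>
        rw [Finset.sum_cons, Finset.sum_cons, ← ih]
        have e1 : ∀ h, kc δ h * ((a i • e i + ∑ x ∈ t, a x • e x : LE (mu K) Γ 𝓕) : GG K → ℂ) (g * h) =
            a i * (kc δ h * (e i : GG K → ℂ) (g * h)) +
            kc δ h * ((∑ x ∈ t, a x • e x : LE (mu K) Γ 𝓕) : GG K → ℂ) (g * h) := by
          intro h
          rw [Submodule.coe_add, Submodule.coe_smul, Pi.add_apply, Pi.smul_apply, smul_eq_mul]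
          ring
        simp only [e1]
        rw [integral_add ((hI (e i)).const_mul _) (hI _), integral_const_mul, (hm i).1 g]
    have hHT : ∑ i, a i * (l i * c i * (e i : GG K → ℂ) g) =
        HT s (fun g => ∫ h, kc δ h * ((∑ i, a i • e i : LE (mu K) Γ 𝓕) : GG K → ℂ) (g * h) ∂(mu K)) g := by
      unfold HT
      have h1 : ∀ η : GG K, ∫ h, kc δ h * ((∑ i, a i • e i : LE (mu K) Γ 𝓕) : GG K → ℂ) (η * g * h) ∂(mu K) =
          ∑ i, a i * (c i * (e i : GG K → ℂ) (η * g)) := fun η => (hsum Finset.univ (η * g)).2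
      simp only [h1]
      rw [Finset.sum_comm]
      refine Finset.sum_congr rfl fun i _ => ?_
      rw [← Finset.mul_sum, ← Finset.mul_sum]
      have h2 := ((hm i).2 g).1
      unfold HT at h2
      simp only at h2
      rw [h2]
      ring
    rw [hHT, one_mul]
    exact (enorm_HT_le _ _ _).trans (HP_mono s (fun x => conv_bound hδ0 hδ _ _) g)
  · intro i g
    have e1 : l' i * c i * (e i : GG K → ℂ) g =
        HT s' (fun g => ∫ h, kc δ h * (e i : GG K → ℂ) (g * h) ∂(mu K)) g := by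
      unfold HT
      have h1 : ∀ η : GG K, ∫ h, kc δ h * (e i : GG K → ℂ) (η * g * h) ∂(mu K) =
          c i * (e i : GG K → ℂ) (η * g) := fun η => (hm i).1 (η * g)
      simp only [h1]
      rw [← Finset.mul_sum]
      have h2 := ((hm i).2 g).2
      unfold HT at h2
      simp only at h2
      rw [h2]
      ring
    rw [e1, one_mul]
    exact (enorm_HT_le _ _ _).trans (HP_mono s' (fun x => conv_bound hδ0 hδ _ _) g)

end Pool.Agent.T2h74
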